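import Pool.Agent.KS6_56.KS.Glob

/-!
# Immersions in the unit ball with small normal curvature: all dimensions, all intermediate curvatures

Let `X` be a closed `n`-manifold, `f : X → Bᴺ` a smooth immersion into the closed unit ball and
`k ≥ 2` with `c(f) < √(3k/(k+2))`. Then the metric `exp(2 ψ) f^*g`, `ψ = -(3k / (4(k-1))) |f|²`,
has positive `k`-dimensional scalar curvature: for every orthonormal family `b_1, …, b_k` the sum of
the sectional curvatures of the planes `b_i, b_j` is positive. For `k = n - 1` this says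
`2 Ric(u, u) < scal` for all unit vectors `u`; for `n = 4`, `k = 3` it is condition (R) under
`c(f) < √(9/5)`.
-/

set_option autoImplicit false

open scoped Manifold ContDiff

namespace Pool.Agent.Results.MP_f2e772_gt.IntermediateScalarCurvature

open Pool.Agent.KS6_56.KS

theorem result {n k : ℕ} (hk : 2 ≤ k) {X : Type*} [TopologicalSpace X] [CompactSpace X]
    [ChartedSpace (Euc n) X] [IsManifold 𝓘(ℝ, Euc n) ∞ X] {N : ℕ} (f : X → Euc N)
    (hf : IsImmersionInBall (Euc n) f)
    (hc : normalCurvature (Euc n) f < ENNReal.ofReal (√(3 * k / (k + 2)))) :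
    ∃ ψ : X → ℝ, (∀ x, ψ x = -(3 * k / (4 * (k - 1))) * ‖f x‖ ^ 2) ∧
      ContMDiff 𝓘(ℝ, Euc n) 𝓘(ℝ) ∞ ψ ∧
      PosScal k (conformal ψ (inducedMetric (E := Euc n) f)) ∧
      ConditionR k (conformal ψ (inducedMetric (E := Euc n) f)) :=
  main hk hf hc

end Pool.Agent.Results.MP_f2e772_gt.IntermediateScalarCurvature
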